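import Pool.Agent.H73.RD.P1
import Pool.Agent.H91.RD.Targets2

/-!
# MP_609556_an: module UPT (retreat property of the highest level)
-/

open MeasureTheory Set Filter Topology Metric

namespace Pool.Agent.H73.RD

open Pool.Agent.H91.RD

theorem resc_lip {f : ℝ → ℝ} {a b K : ℝ} (hL : Lip f K) (hab : a < b) (s t : ℝ) :
    |resc f a b s - resc f a b t| ≤ K * |s - t| := by
  have hba : 0 < b - a := by linarith
  have h1 := hL.lip (a + (b - a) * s) (a + (b - a) * t)
  have h2 : a + (b - a) * s - (a + (b - a) * t) = (b - a) * (s - t) := by ring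
  rw [h2, abs_mul, abs_of_pos hba] at h1
  unfold resc
  rw [← mul_sub, abs_mul, abs_of_pos (inv_pos.2 hba)]
  calc (b - a)⁻¹ * |f (a + (b - a) * s) - f (a + (b - a) * t)|
      ≤ (b - a)⁻¹ * (K * ((b - a) * |s - t|)) :=
        mul_le_mul_of_nonneg_left h1 (inv_pos.2 hba).le
    _ = K * |s - t| := by field_simp

theorem rcut_eq {f : ℝ → ℝ} {a b : ℝ} (s : ℝ) (hs : s ∈ Icc (0 : ℝ) 1) :
    resc f a b s = rcut f a b s := by
  unfold rcut
  rw [if_pos hs]

theorem upt (hF : T_FRP) (hB : T_P2G) (hR : T_RAD) (hM : T_MP0) (hS : T_RSC) : T_UPT := by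
  intro N f φ a0 c K k μ η0 θ lam hN hlev CT η' hCT hη'
  have hyp := hlev.hyp
  have ha1 : a0 < 1 := hlev.ab
  have hΔ : 0 < 1 - a0 := by linarith
  have hΔ1 : 1 - a0 ≤ 1 := by linarith [hlev.a0]
  obtain ⟨β, C, hfr⟩ := hF _ φ c lam K k μ η0 θ hyp
  have hFl : ∀ s t, |resc f a0 1 s - resc f a0 1 t| ≤ K * |s - t| :=
    resc_lip hlev.toLip hlev.ab
  have hCT' : 1 ≤ CT / (1 - a0) := by
    rw [le_div_iff₀ hΔ]
    linarith
  have hη1 : 0 < η' / (1 - a0) := div_pos hη' hΔ
  obtain ⟨a, K5, ha, hK5, hB'⟩ := hB N _ (resc f a0 1) φ c lam K k μ η0 θ β C 1 hN hyp hfr hFl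
    (fun s hs => rcut_eq s hs) le_rfl (by
      intro s t hs hst ht
      have h8 := hyp.eta1
      rw [rcut_eq s ⟨by linarith, by linarith⟩, rcut_eq t ⟨by linarith, by linarith⟩]
      exact hyp.near1 s t hs hst ht) (CT / (1 - a0)) (η' / (1 - a0)) 1 hCT' hη1 le_rfl
  refine ⟨K5, hK5, ?_⟩
  intro u hu hu01 t0 ht0 x0 σ hσ R hR' hsmall
  obtain ⟨S, q, R3, -, -, -, -, hScont, hSC2, hSd, hS0, hSsup, hSinit, hSend, -⟩ := hB' σ hσ R hR'
  have hc := hyp.front.cpos
  have hap : 0 < a := by linarith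
  have hv := hS N f a0 1 u hlev.ab hu
  set v : ℝ → E N → ℝ := fun t x => (u t x - a0) / (1 - a0) with hvdef
  have hvle : ∀ t > 0, ∀ x, v t x ≤ 1 := by
    intro t ht x
    rw [hvdef]
    simp only
    rw [div_le_one hΔ]
    linarith [(hu01 t ht x).2]
  set r : E N → ℝ := fun x => √(a ^ 2 + ‖x - x0‖ ^ 2) with hr
  have hra : ∀ x, a ≤ r x := fun x => le_rad x0 x
  have key := hM N K 0 σ 1 (fun τ x => S τ (r x) - v (t0 + τ) x) hyp.toLip.K0.le hσ ?_ ?_ ?_ ?_ σ
    ⟨hσ.le, le_rfl⟩ x0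
  · have h1 : r x0 = a := by
      simp only [hr]
      rw [sub_self, norm_zero, zero_pow two_ne_zero, add_zero]
      exact Real.sqrt_sq hap.le
    rw [h1] at key
    have h2 : v (t0 + σ) x0 ≤ η' / (1 - a0) := by linarith
    have h3 : (u (t0 + σ) x0 - a0) / (1 - a0) ≤ η' / (1 - a0) := h2
    rw [div_le_div_iff_of_pos_right hΔ] at h3
    linarith
  · -- continuity
    apply ContinuousOn.sub
    · have h1 : ContinuousOn (fun p : ℝ × E N => ((p.1, r p.2) : ℝ × ℝ)) (Icc 0 σ ×ˢ univ) := by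
        have := continuous_rad a x0
        have h3 : Continuous (fun p : ℝ × E N => ((p.1, r p.2) : ℝ × ℝ)) :=
          continuous_fst.prodMk (this.comp continuous_snd)
        exact h3.continuousOn
      have h2 : MapsTo (fun p : ℝ × E N => ((p.1, r p.2) : ℝ × ℝ)) (Icc 0 σ ×ˢ univ)
          (Icc 0 σ ×ˢ univ) := by
        rintro ⟨a, b⟩ ⟨ha, _⟩
        exact ⟨ha, mem_univ _⟩
      exact hScont.comp h1 h2
    · have h1 : ContinuousOn (fun p : ℝ × E N => ((t0 + p.1, p.2) : ℝ × E N)) (Icc 0 σ ×ˢ univ) := by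
        fun_prop
      have h2 : MapsTo (fun p : ℝ × E N => ((t0 + p.1, p.2) : ℝ × E N)) (Icc 0 σ ×ˢ univ)
          (Ioi 0 ×ˢ univ) := by
        rintro ⟨a, b⟩ ⟨ha, _⟩
        refine ⟨?_, mem_univ _⟩
        simp only [mem_Icc] at ha
        simp only [mem_Ioi]
        linarith [ha.1]
      exact hv.cont.comp h1 h2
  · -- lower bound
    intro t ht x
    have h1 := hvle (t0 + t) (by linarith [ht.1]) x
    have h2 := hS0 t ht (r x)
    linarith
  · -- differential inequality
    intro t ht x hz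
    have htp : 0 < t0 + t := by linarith [ht.1]
    have ht' : t ∈ Icc 0 σ := ⟨ht.1.le, ht.2⟩
    have hSr := hR N a x0 (S t) hap (hSC2 t ht')
    have hd1 : DifferentiableAt ℝ (fun s => v (t0 + s) x) t := by
      have := hv.dt (t0 + t) htp x
      exact DifferentiableAt.comp t this (by fun_prop)
    have hd2 := hSd t ht' (r x)
    have hup := hvle (t0 + t) htp x
    have hS1 : S t (r x) < 1 := by linarith
    refine ⟨?_, ?_, ?_⟩
    · exact hSr.1.contDiffAt.sub (hv.c2 _ htp).contDiffAt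
    · exact hd2.sub hd1
    · rw [lap_sub hSr.1.contDiffAt (hv.c2 _ htp).contDiffAt, hSr.2 x]
      have e1 : deriv (fun s => S s (r x) - v (t0 + s) x) t =
          deriv (fun s => S s (r x)) t - deriv (fun s => v s x) (t0 + t) := by
        rw [show (fun s => S s (r x) - v (t0 + s) x) =
          (fun s => S s (r x)) - (fun s => v (t0 + s) x) from rfl, deriv_sub hd2 hd1]
        congr 1
        exact deriv_comp_const_add (fun s => v s x) t0 t
      rw [e1]
      have h1 := hv.eqn _ htp x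
      have h2 := hSsup t ht' (r x) (hra x) hS1
      have h3 := hFl (S t (r x)) (v (t0 + t) x)
      rw [abs_of_neg hz] at h3
      have h4 := (abs_le.1 h3).1
      have h5 : √(a ^ 2 + ‖x - x0‖ ^ 2) = r x := rfl
      rw [h5, h1]
      nlinarith
  · -- initial time
    intro x
    simp only [add_zero]
    have h1 := hvle t0 ht0 x
    have h2 := hsmall x
    have h3 := hSinit (r x)
    have h4 : dist x x0 ≤ r x := by
      rw [dist_eq_norm]; exact norm_le_rad a x0 x
    have h5 : CT / (1 - a0) * Real.exp (-(c / 2 * (R - dist x x0))) ≤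
        CT / (1 - a0) * Real.exp (-(c / 2 * (R - r x))) := by
      apply mul_le_mul_of_nonneg_left _ (by linarith)
      apply Real.exp_le_exp.2
      nlinarith
    have h7 : v t0 x ≤ CT / (1 - a0) * Real.exp (-(c / 2 * (R - dist x x0))) := by
      rw [hvdef]
      simp only
      rw [div_mul_eq_mul_div, div_le_div_iff_of_pos_right hΔ]
      linarith
    have h6 : v t0 x ≤ min 1 (CT / (1 - a0) * Real.exp (-(c / 2 * (R - r x)))) :=
      le_min h1 (h7.trans h5)
    linarith

end Pool.Agent.H73.RD
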