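import Pool.Agent.H73.RD.P1

/-!
# MP_609556_an: module KBOX (moving compactly supported subsolution)
-/

open MeasureTheory Set Filter Topology Metric

namespace Pool.Agent.H73.RD

open Pool.Agent.H91.RD

/-- the second derivative along a line -/
theorem second_dir {N : ℕ} {G : E N → ℝ} (hG : ContDiff ℝ 2 G) (x v : E N) {F' : ℝ → ℝ} {F'' : ℝ}
    (h1 : ∀ s, HasDerivAt (fun s : ℝ => G (x + s • v)) (F' s) s) (h2 : HasDerivAt F' F'' 0) :
    iteratedFDeriv ℝ 2 G x ![v, v] = F'' := by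
  rw [iteratedFDeriv_two_apply]
  simp only [Matrix.cons_val_zero, Matrix.cons_val_one]
  have hline : ∀ s : ℝ, HasDerivAt (fun s : ℝ => x + s • v) v s := by
    intro s
    have := ((hasDerivAt_id s).smul_const v).const_add x
    simpa using this
  have hd : Differentiable ℝ G := hG.differentiable (by norm_num)
  have e1 : F' = fun s => fderiv ℝ G (x + s • v) v := by
    funext s
    have h3 : HasDerivAt (fun s : ℝ => G (x + s • v)) (fderiv ℝ G (x + s • v) v) s :=
      (hd (x + s • v)).hasFDerivAt.comp_hasDerivAt s (hline s)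
    exact (h1 s).unique h3
  have hd2 : Differentiable ℝ (fderiv ℝ G) :=
    (hG.fderiv_right (m := 1) (by norm_num)).differentiable (by norm_num)
  have h4 : HasDerivAt (fun s : ℝ => fderiv ℝ G (x + s • v)) (fderiv ℝ (fderiv ℝ G) x v) 0 := by
    have h5 : HasFDerivAt (fderiv ℝ G) (fderiv ℝ (fderiv ℝ G) x) (x + (0 : ℝ) • v) := by
      rw [zero_smul, add_zero]
      exact (hd2 x).hasFDerivAt
    exact h5.comp_hasDerivAt 0 (hline 0)
  have h6 : HasDerivAt (fun s : ℝ => fderiv ℝ G (x + s • v) v) (fderiv ℝ (fderiv ℝ G) x v v) 0 :=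
    (ContinuousLinearMap.apply ℝ ℝ v).hasFDerivAt.comp_hasDerivAt (0 : ℝ) h4
  rw [e1] at h2
  exact h6.unique h2

/-- the smooth profile -/
noncomputable def G0 {N : ℕ} (κ L : ℝ) (V p : E N) (x : E N) : ℝ :=
  κ * Real.exp (-(inner ℝ V (x - p)) / 2) * (1 - ‖x - p‖ ^ 2 / L) ^ 2

theorem contDiff_G0 {N : ℕ} (κ L : ℝ) (V p : E N) : ContDiff ℝ 2 (G0 κ L V p) := by
  unfold G0
  have h1 : ContDiff ℝ 2 (fun x : E N => ‖x - p‖ ^ 2) := (contDiff_id.sub contDiff_const).norm_sq ℝ
  have h2 : ContDiff ℝ 2 (fun x : E N => inner ℝ V (x - p)) :=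
    contDiff_const.inner ℝ (contDiff_id.sub contDiff_const)
  fun_prop

/-- Laplacian of the smooth profile -/
theorem lap_G0 {N : ℕ} (κ L : ℝ) (V p x : E N) :
    Laplacian.laplacian (G0 κ L V p) x = κ * Real.exp (-(inner ℝ V (x - p)) / 2) *
      (‖V‖ ^ 2 * (1 - ‖x - p‖ ^ 2 / L) ^ 2 / 4 + 4 * (1 - ‖x - p‖ ^ 2 / L) * inner ℝ V (x - p) / L
        + 8 * ‖x - p‖ ^ 2 / L ^ 2 - 4 * N * (1 - ‖x - p‖ ^ 2 / L) / L) := by
  set b := EuclideanSpace.basisFun (Fin N) ℝ with hb
  rw [InnerProductSpace.laplacian_eq_iteratedFDeriv_orthonormalBasis _ b]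
  simp only
  set w := 1 - ‖x - p‖ ^ 2 / L with hw
  set e := Real.exp (-(inner ℝ V (x - p)) / 2) with he
  have hdir : ∀ i, iteratedFDeriv ℝ 2 (G0 κ L V p) x ![b i, b i] =
      κ * e * ((inner ℝ V (b i)) ^ 2 * w ^ 2 / 4 +
        4 * w * (inner ℝ V (b i) * inner ℝ (b i) (x - p)) / L
        + 8 * (inner ℝ (b i) (x - p)) ^ 2 / L ^ 2 - 4 * w / L) := by
    intro i
    have hn : ‖b i‖ = 1 := b.orthonormal.1 i
    set β := inner ℝ V (b i) with hβ
    set B := inner ℝ (b i) (x - p) with hB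
    set α := inner ℝ V (x - p) with hα
    set A := ‖x - p‖ ^ 2 with hA
    have hfun : ∀ s : ℝ, G0 κ L V p (x + s • b i) =
        κ * Real.exp (-(α + s * β) / 2) * (1 - (A + 2 * s * B + s ^ 2) / L) ^ 2 := by
      intro s
      unfold G0
      have e1 : x + s • b i - p = (x - p) + s • b i := by abel
      rw [e1, inner_add_right, inner_smul_right, norm_add_sq_real, inner_smul_right, norm_smul, hn,
        mul_one, Real.norm_eq_abs, sq_abs, real_inner_comm (b i) (x - p)]
      have e2 : ‖x - p‖ ^ 2 + 2 * (s * inner ℝ (b i) (x - p)) + s ^ 2 = A + 2 * s * B + s ^ 2 := by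
        rw [hA, hB]; ring
      rw [e2]
    have h1 : ∀ s : ℝ, HasDerivAt (fun s : ℝ => G0 κ L V p (x + s • b i))
        (κ * Real.exp (-(α + s * β) / 2) * (-β / 2 * (1 - (A + 2 * s * B + s ^ 2) / L) ^ 2 -
          2 * (1 - (A + 2 * s * B + s ^ 2) / L) * ((2 * B + 2 * s) / L))) s := by
      intro s
      have h2 : HasDerivAt (fun s : ℝ => κ * Real.exp (-(α + s * β) / 2))
          (κ * (Real.exp (-(α + s * β) / 2) * (-β / 2))) s := by
        have h3 : HasDerivAt (fun s : ℝ => -(α + s * β) / 2) (-β / 2) s := by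
          have := ((((hasDerivAt_id s).mul_const β).const_add α).neg).div_const 2
          simpa using this
        exact (h3.exp).const_mul κ
      have h4 : HasDerivAt (fun s : ℝ => 1 - (A + 2 * s * B + s ^ 2) / L)
          (-((2 * B + 2 * s) / L)) s := by
        have h5 : HasDerivAt (fun s : ℝ => A + 2 * s * B + s ^ 2) (2 * B + 2 * s) s := by
          have h6 := ((((hasDerivAt_id s).const_mul 2).mul_const B).const_add A).add
            ((hasDerivAt_id s).pow 2)
          refine (h6.congr_deriv ?_)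
          simp
        exact (h5.div_const L).const_sub 1
      have h7 := h2.mul (h4.pow 2)
      have h8 := h7.congr_of_eventuallyEq (f₁ := fun s : ℝ => G0 κ L V p (x + s • b i))
        (Eventually.of_forall fun s => hfun s)
      refine h8.congr_deriv ?_
      simp only [Pi.pow_apply, Nat.cast_ofNat, Nat.add_one_sub_one, pow_one]
      ring
    have h2 : HasDerivAt (fun s : ℝ => κ * Real.exp (-(α + s * β) / 2) *
        (-β / 2 * (1 - (A + 2 * s * B + s ^ 2) / L) ^ 2 -
          2 * (1 - (A + 2 * s * B + s ^ 2) / L) * ((2 * B + 2 * s) / L)))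
        (κ * e * (β ^ 2 * w ^ 2 / 4 + 4 * w * (β * B) / L + 8 * B ^ 2 / L ^ 2 - 4 * w / L)) 0 := by
      have h3 : HasDerivAt (fun s : ℝ => κ * Real.exp (-(α + s * β) / 2))
          (κ * (Real.exp (-(α + 0 * β) / 2) * (-β / 2))) 0 := by
        have h3 : HasDerivAt (fun s : ℝ => -(α + s * β) / 2) (-β / 2) 0 := by
          have := ((((hasDerivAt_id (0 : ℝ)).mul_const β).const_add α).neg).div_const 2
          simpa using this
        exact (h3.exp).const_mul κ
      have h4 : HasDerivAt (fun s : ℝ => 1 - (A + 2 * s * B + s ^ 2) / L)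
          (-((2 * B + 2 * 0) / L)) 0 := by
        have h5 : HasDerivAt (fun s : ℝ => A + 2 * s * B + s ^ 2) (2 * B + 2 * 0) 0 := by
          have h6 := ((((hasDerivAt_id (0 : ℝ)).const_mul 2).mul_const B).const_add A).add
            ((hasDerivAt_id (0 : ℝ)).pow 2)
          refine (h6.congr_deriv ?_)
          simp
        exact (h5.div_const L).const_sub 1
      have h5 : HasDerivAt (fun s : ℝ => (2 * B + 2 * s) / L) (2 / L) 0 := by
        have := ((((hasDerivAt_id (0 : ℝ)).const_mul 2).const_add (2 * B)).div_const L)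
        simpa using this
      have h6 := h3.mul (((h4.pow 2).const_mul (-β / 2)).sub ((h4.const_mul 2).mul h5))
      refine h6.congr_deriv ?_
      simp only [Pi.pow_apply, Pi.sub_apply, Pi.mul_apply, Nat.cast_ofNat, Nat.add_one_sub_one,
        pow_one, mul_zero, zero_mul, add_zero, ne_eq,
        OfNat.ofNat_ne_zero, not_false_eq_true, zero_pow, ← hw, ← he]
      ring
    exact second_dir (contDiff_G0 κ L V p) x (b i) h1 h2
  rw [Finset.sum_congr rfl (fun i _ => hdir i), ← Finset.mul_sum]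
  congr 1
  have s1 : ∑ i, (inner ℝ V (b i)) ^ 2 = ‖V‖ ^ 2 := by
    have := b.sum_inner_mul_inner V V
    rw [real_inner_self_eq_norm_sq] at this
    rw [← this]
    refine Finset.sum_congr rfl fun i _ => ?_
    rw [sq, real_inner_comm V (b i)]
  have s2 : ∑ i, (inner ℝ V (b i) * inner ℝ (b i) (x - p)) = inner ℝ V (x - p) :=
    b.sum_inner_mul_inner V (x - p)
  have s3 : ∑ i, (inner ℝ (b i) (x - p)) ^ 2 = ‖x - p‖ ^ 2 := by
    have := b.sum_inner_mul_inner (x - p) (x - p)
    rw [real_inner_self_eq_norm_sq] at this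
    rw [← this]
    refine Finset.sum_congr rfl fun i _ => ?_
    rw [sq, real_inner_comm (x - p) (b i)]
  rw [Finset.sum_sub_distrib, Finset.sum_add_distrib, Finset.sum_add_distrib]
  have t1 : ∑ i, (inner ℝ V (b i)) ^ 2 * w ^ 2 / 4 = ‖V‖ ^ 2 * w ^ 2 / 4 := by
    rw [← s1, Finset.sum_mul, Finset.sum_div]
  have t2 : ∑ i, 4 * w * (inner ℝ V (b i) * inner ℝ (b i) (x - p)) / L =
      4 * w * inner ℝ V (x - p) / L := by
    rw [← s2, Finset.mul_sum, Finset.sum_div]
  have t3 : ∑ i, 8 * (inner ℝ (b i) (x - p)) ^ 2 / L ^ 2 = 8 * ‖x - p‖ ^ 2 / L ^ 2 := by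
    rw [← s3, Finset.mul_sum, Finset.sum_div]
  rw [t1, t2, t3, Finset.sum_const, Finset.card_univ, Fintype.card_fin, nsmul_eq_mul]
  ring

/-- the compactly supported profile -/
noncomputable def S0 {N : ℕ} (κ L : ℝ) (V p : E N) (x : E N) : ℝ :=
  κ * Real.exp (-(inner ℝ V (x - p)) / 2) * (max 0 (1 - ‖x - p‖ ^ 2 / L)) ^ 2

theorem S0_eq {N : ℕ} {κ L : ℝ} {V p x : E N} (h : 0 < 1 - ‖x - p‖ ^ 2 / L) :
    S0 κ L V p x = G0 κ L V p x := by
  unfold S0 G0
  rw [max_eq_right h.le]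

theorem S0_zero {N : ℕ} {κ L : ℝ} {V p x : E N} (h : 1 - ‖x - p‖ ^ 2 / L ≤ 0) :
    S0 κ L V p x = 0 := by
  unfold S0
  rw [max_eq_left h]
  ring

/-- time derivative of the smooth profile -/
theorem hasDerivAt_G0 {N : ℕ} (κ L : ℝ) (V x0 x : E N) (t : ℝ) :
    HasDerivAt (fun τ : ℝ => G0 κ L V (x0 + τ • V) x)
      (κ * Real.exp (-(inner ℝ V (x - (x0 + t • V))) / 2) *
      (‖V‖ ^ 2 * (1 - ‖x - (x0 + t • V)‖ ^ 2 / L) ^ 2 / 2 +
        4 * (1 - ‖x - (x0 + t • V)‖ ^ 2 / L) * inner ℝ V (x - (x0 + t • V)) / L)) t := by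
  set n := ‖V‖ ^ 2 with hn
  set B := inner ℝ V (x - x0) with hB
  set A := ‖x - x0‖ ^ 2 with hA
  have i1 : ∀ τ : ℝ, inner ℝ V (x - (x0 + τ • V)) = B - τ * n := by
    intro τ
    have e1 : x - (x0 + τ • V) = (x - x0) - τ • V := by abel
    rw [e1, inner_sub_right, inner_smul_right, real_inner_self_eq_norm_sq]
  have i2 : ∀ τ : ℝ, ‖x - (x0 + τ • V)‖ ^ 2 = A - 2 * τ * B + τ ^ 2 * n := by
    intro τ
    have e1 : x - (x0 + τ • V) = (x - x0) - τ • V := by abel
    rw [e1, norm_sub_sq_real, inner_smul_right, norm_smul, Real.norm_eq_abs, mul_pow, sq_abs,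
      real_inner_comm V (x - x0)]
    rw [← hB, ← hA, ← hn]
    ring
  have hfun : ∀ τ : ℝ, G0 κ L V (x0 + τ • V) x =
      κ * Real.exp (-(B - τ * n) / 2) * (1 - (A - 2 * τ * B + τ ^ 2 * n) / L) ^ 2 := by
    intro τ
    unfold G0
    rw [i1, i2]
  rw [i1, i2]
  have h2 : HasDerivAt (fun s : ℝ => κ * Real.exp (-(B - s * n) / 2))
      (κ * (Real.exp (-(B - t * n) / 2) * (n / 2))) t := by
    have h3 : HasDerivAt (fun s : ℝ => -(B - s * n) / 2) (n / 2) t := by
      have := ((((hasDerivAt_id t).mul_const n).const_sub B).neg).div_const 2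
      simpa using this
    exact (h3.exp).const_mul κ
  have h4 : HasDerivAt (fun s : ℝ => 1 - (A - 2 * s * B + s ^ 2 * n) / L)
      (-((-2 * B + 2 * t * n) / L)) t := by
    have h5 : HasDerivAt (fun s : ℝ => A - 2 * s * B + s ^ 2 * n) (-2 * B + 2 * t * n) t := by
      have h6 := ((((hasDerivAt_id t).const_mul 2).mul_const B).const_sub A).add
        (((hasDerivAt_id t).pow 2).mul_const n)
      refine (h6.congr_deriv ?_)
      simp
    exact (h5.div_const L).const_sub 1
  have h7 := h2.mul (h4.pow 2)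
  have h8 := h7.congr_of_eventuallyEq (f₁ := fun τ : ℝ => G0 κ L V (x0 + τ • V) x)
    (Eventually.of_forall fun s => hfun s)
  refine h8.congr_deriv ?_
  simp only [Pi.pow_apply, Nat.cast_ofNat, Nat.add_one_sub_one, pow_one]
  ring

/-- bound of the profile -/
theorem S0_le {N : ℕ} {κ L l b : ℝ} {V p x : E N} (hκ : 0 ≤ κ) (hl : 0 < l) (hL : L = l ^ 2)
    (hV : ‖V‖ ≤ b) : S0 κ L V p x ≤ κ * Real.exp (b * l / 2) := by
  have hb : 0 ≤ b := (norm_nonneg V).trans hV
  by_cases h : 0 < 1 - ‖x - p‖ ^ 2 / L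
  · unfold S0
    rw [max_eq_right h.le]
    have hLp : 0 < L := by rw [hL]; positivity
    have h1 : ‖x - p‖ ^ 2 / L < 1 := by linarith
    have h2 : ‖x - p‖ ^ 2 < l ^ 2 := by
      rw [div_lt_one hLp, hL] at h1
      exact h1
    have h3 : ‖x - p‖ < l := lt_of_pow_lt_pow_left₀ 2 hl.le h2
    have h4 : -(inner ℝ V (x - p)) / 2 ≤ b * l / 2 := by
      have h5 := abs_real_inner_le_norm V (x - p)
      have h6 := neg_abs_le (inner ℝ V (x - p))
      have h7 : ‖V‖ * ‖x - p‖ ≤ b * l := mul_le_mul hV h3.le (norm_nonneg _) hb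
      linarith
    have h8 : (1 - ‖x - p‖ ^ 2 / L) ^ 2 ≤ 1 := by
      have h9 : 0 ≤ ‖x - p‖ ^ 2 / L := by positivity
      nlinarith
    have h10 := Real.exp_le_exp.2 h4
    calc κ * Real.exp (-(inner ℝ V (x - p)) / 2) * (1 - ‖x - p‖ ^ 2 / L) ^ 2
        ≤ κ * Real.exp (b * l / 2) * 1 := by
          apply mul_le_mul _ h8 (by positivity) (by positivity)
          exact mul_le_mul_of_nonneg_left h10 hκ
      _ = κ * Real.exp (b * l / 2) := mul_one _
  · rw [S0_zero (not_lt.1 h)]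
    positivity

theorem S0_nonneg {N : ℕ} {κ L : ℝ} {V p x : E N} (hκ : 0 ≤ κ) : 0 ≤ S0 κ L V p x := by
  unfold S0; positivity

theorem kbox (hM : T_MP0) : T_KBOX := by
  intro N f K m b hL hpos hm hlin hb hbm
  set ε : ℝ := (4 * m - b ^ 2) / 8 with hε
  have hεp : 0 < ε := by rw [hε]; linarith
  obtain ⟨s1, hs1, hf⟩ := hlin ε hεp
  set l : ℝ := 1 + (N + 2) ^ 2 / ε with hl
  have hl1 : 1 ≤ l := by
    rw [hl]
    have : 0 ≤ ((N : ℝ) + 2) ^ 2 / ε := by positivity
    linarith
  have hlp : 0 < l := by linarith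
  set L : ℝ := l ^ 2 with hLdef
  have hLp : 0 < L := by positivity
  have hεL : ((N : ℝ) + 2) ^ 2 ≤ ε * L := by
    have h1 : ε * l = ε + (N + 2) ^ 2 := by
      rw [hl]; field_simp
    have h2 : l ≤ L := by rw [hLdef]; nlinarith
    have h3 : ε * l ≤ ε * L := mul_le_mul_of_nonneg_left h2 hεp.le
    linarith
  refine ⟨l, hlp, ?_⟩
  intro δ hδ
  set q : ℝ := min s1 (min δ (1 / 2)) with hq
  have hqp : 0 < q := by
    rw [hq]
    exact lt_min hs1 (lt_min hδ (by norm_num))
  have hqs : q ≤ s1 := min_le_left _ _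
  have hqδ : q ≤ δ := (min_le_right _ _).trans (min_le_left _ _)
  have hq2 : q ≤ 1 / 2 := (min_le_right _ _).trans (min_le_right _ _)
  set κ : ℝ := q * Real.exp (-(b * l / 2)) with hκ
  have hκp : 0 < κ := by positivity
  have hκe : κ * Real.exp (b * l / 2) = q := by
    rw [hκ, mul_assoc, ← Real.exp_add, neg_add_cancel, Real.exp_zero, mul_one]
  have hκq : κ ≤ q := by
    rw [hκ]
    have : Real.exp (-(b * l / 2)) ≤ 1 := by
      apply Real.exp_le_one_iff.2
      have : 0 ≤ b * l / 2 := by positivity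
      linarith
    nlinarith
  refine ⟨κ, hκp, ?_⟩
  intro U u hu t0 ht0 x0 hu0 s hs y hy
  have hunn : ∀ t > 0, ∀ x, 0 ≤ u t x := fun t ht x => hu.nonneg ht x
  rcases hs.eq_or_lt with hs0 | hsp
  · subst hs0
    rw [mul_zero] at hy
    have : x0 = y := dist_le_zero.1 hy
    subst this
    rw [add_zero]
    exact (hκq.trans hqδ).trans (hu0 x0 (mem_closedBall_self hlp.le))
  set V : E N := s⁻¹ • (y - x0) with hV
  have hVb : ‖V‖ ≤ b := by
    rw [hV, norm_smul, Real.norm_eq_abs, abs_of_pos (inv_pos.2 hsp), inv_mul_le_iff₀ hsp,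
      ← dist_eq_norm, dist_comm, mul_comm]
    exact hy
  have hV2 : ‖V‖ ^ 2 ≤ b ^ 2 := pow_le_pow_left₀ (norm_nonneg _) hVb 2
  have hSq : ∀ p x, S0 κ L V p x ≤ q := by
    intro p x
    rw [← hκe]
    exact S0_le hκp.le hlp hLdef hVb
  have key := hM N K 0 s 1 (fun τ x => u (t0 + τ) x - S0 κ L V (x0 + τ • V) x) hL.K0.le hsp
    ?_ ?_ ?_ ?_ s ⟨hsp.le, le_rfl⟩ y
  · have h1 : x0 + s • V = y := by
      rw [hV, smul_smul, mul_inv_cancel₀ hsp.ne', one_smul]
      abel
    have h2 : S0 κ L V (x0 + s • V) y = κ := by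
      rw [h1]
      unfold S0
      simp
    rw [h2] at key
    linarith
  · -- continuity
    apply ContinuousOn.sub
    · have h1 : ContinuousOn (fun p : ℝ × E N => ((t0 + p.1, p.2) : ℝ × E N)) (Icc 0 s ×ˢ univ) := by
        fun_prop
      have h2 : MapsTo (fun p : ℝ × E N => ((t0 + p.1, p.2) : ℝ × E N)) (Icc 0 s ×ˢ univ)
          (Ioi 0 ×ˢ univ) := by
        rintro ⟨a, b⟩ ⟨ha, _⟩
        refine ⟨?_, mem_univ _⟩
        simp only [mem_Icc] at ha
        simp only [mem_Ioi]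
        linarith [ha.1]
      exact hu.sol.cont.comp h1 h2
    · unfold S0
      apply Continuous.continuousOn
      have c1 : Continuous (fun p : ℝ × E N => p.2 - (x0 + p.1 • V)) := by fun_prop
      have c2 : Continuous (fun p : ℝ × E N => inner ℝ V (p.2 - (x0 + p.1 • V))) :=
        continuous_const.inner c1
      have c3 : Continuous (fun p : ℝ × E N => ‖p.2 - (x0 + p.1 • V)‖ ^ 2) := c1.norm.pow 2
      have c4 : Continuous (fun p : ℝ × E N => max 0 (1 - ‖p.2 - (x0 + p.1 • V)‖ ^ 2 / L)) :=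
        continuous_const.max (continuous_const.sub (c3.div_const L))
      exact (continuous_const.mul (Real.continuous_exp.comp (c2.neg.div_const 2))).mul (c4.pow 2)
  · -- lower bound
    intro t ht x
    have h1 := hunn (t0 + t) (by linarith [ht.1]) x
    have h2 := hSq (x0 + t • V) x
    linarith
  · -- differential inequality
    intro t ht x hz
    have htp : 0 < t0 + t := by linarith [ht.1]
    have hup := hunn (t0 + t) htp x
    have hd1 : DifferentiableAt ℝ (fun s => u (t0 + s) x) t := by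
      have := hu.sol.dt (t0 + t) htp x
      exact DifferentiableAt.comp t this (by fun_prop)
    have hw : 0 < 1 - ‖x - (x0 + t • V)‖ ^ 2 / L := by
      by_contra hneg
      rw [S0_zero (not_lt.1 hneg)] at hz
      linarith
    have hSx : S0 κ L V (x0 + t • V) x = G0 κ L V (x0 + t • V) x := S0_eq hw
    have evx : S0 κ L V (x0 + t • V) =ᶠ[𝓝 x] G0 κ L V (x0 + t • V) := by
      have hc : Continuous (fun x : E N => 1 - ‖x - (x0 + t • V)‖ ^ 2 / L) := by fun_prop
      filter_upwards [hc.continuousAt.eventually (lt_mem_nhds hw)] with x' hx'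
      exact S0_eq hx'
    have evt : (fun τ : ℝ => S0 κ L V (x0 + τ • V) x) =ᶠ[𝓝 t]
        (fun τ : ℝ => G0 κ L V (x0 + τ • V) x) := by
      have hc : Continuous (fun τ : ℝ => 1 - ‖x - (x0 + τ • V)‖ ^ 2 / L) := by fun_prop
      filter_upwards [hc.continuousAt.eventually (lt_mem_nhds hw)] with x' hx'
      exact S0_eq hx'
    have hC : ContDiffAt ℝ 2 (S0 κ L V (x0 + t • V)) x :=
      (contDiff_G0 κ L V (x0 + t • V)).contDiffAt.congr_of_eventuallyEq evx
    have hlap : Laplacian.laplacian (S0 κ L V (x0 + t • V)) x =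
        Laplacian.laplacian (G0 κ L V (x0 + t • V)) x :=
      (InnerProductSpace.laplacian_congr_nhds evx).eq_of_nhds
    have hdt := (hasDerivAt_G0 κ L V x0 x t).congr_of_eventuallyEq evt
    refine ⟨?_, ?_, ?_⟩
    · exact (hu.sol.c2 _ htp).contDiffAt.sub hC
    · exact hd1.sub hdt.differentiableAt
    · rw [lap_sub (hu.sol.c2 _ htp).contDiffAt hC, hlap, lap_G0]
      have e1 : deriv (fun s => u (t0 + s) x - S0 κ L V (x0 + s • V) x) t =
          deriv (fun s => u s x) (t0 + t) - deriv (fun s => S0 κ L V (x0 + s • V) x) t := by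
        rw [show (fun s => u (t0 + s) x - S0 κ L V (x0 + s • V) x) =
          (fun s => u (t0 + s) x) - (fun s => S0 κ L V (x0 + s • V) x) from rfl,
          deriv_sub hd1 hdt.differentiableAt]
        congr 1
        exact deriv_comp_const_add (fun s => u s x) t0 t
      rw [e1, hdt.deriv, hu.sol.eqn _ htp x]
      have h3 := hL.lip (u (t0 + t) x) (S0 κ L V (x0 + t • V) x)
      rw [abs_of_neg hz] at h3
      have h4 := (abs_le.1 h3).1
      have h5 := hf (S0 κ L V (x0 + t • V) x) ⟨S0_nonneg hκp.le, (hSq _ _).trans hqs⟩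
      -- the algebra
      have hGe : G0 κ L V (x0 + t • V) x = κ * Real.exp (-(inner ℝ V (x - (x0 + t • V))) / 2) *
        (1 - ‖x - (x0 + t • V)‖ ^ 2 / L) ^ 2 := rfl
      rw [hGe] at hSx
      set X := ‖x - (x0 + t • V)‖ ^ 2 with hX
      set w := 1 - X / L with hwdef
      set e := κ * Real.exp (-(inner ℝ V (x - (x0 + t • V))) / 2) with he
      have hep : 0 < e := by positivity
      set J := inner ℝ V (x - (x0 + t • V)) with hJ
      have hXL : X = L * (1 - w) := by
        rw [hwdef]; field_simp; ring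
      have hX2 : 8 * X / L ^ 2 = 8 * (1 - w) / L := by
        rw [hXL]; field_simp
      rw [hX2]
      have halg : ‖V‖ ^ 2 * w ^ 2 / 2 + 4 * w * J / L - (‖V‖ ^ 2 * w ^ 2 / 4 + 4 * w * J / L +
          8 * (1 - w) / L - 4 * N * w / L) ≤ (m - ε) * w ^ 2 := by
        have g1 : ‖V‖ ^ 2 * w ^ 2 / 4 ≤ (m - 2 * ε) * w ^ 2 := by
          have : ‖V‖ ^ 2 / 4 ≤ m - 2 * ε := by rw [hε]; linarith
          nlinarith [sq_nonneg w]
        have g2 : 4 * N * w / L - 8 * (1 - w) / L ≤ ε * w ^ 2 := by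
          rw [← sub_div, div_le_iff₀ hLp]
          have g3 : ((N : ℝ) + 2) ^ 2 * w ^ 2 ≤ ε * L * w ^ 2 :=
            mul_le_mul_of_nonneg_right hεL (sq_nonneg w)
          nlinarith [sq_nonneg (((N : ℝ) + 2) * w - 4), sq_nonneg (((N : ℝ) + 2) * w - 2)]
        have g4 : ‖V‖ ^ 2 * w ^ 2 / 2 + 4 * w * J / L - (‖V‖ ^ 2 * w ^ 2 / 4 + 4 * w * J / L +
          8 * (1 - w) / L - 4 * N * w / L) = ‖V‖ ^ 2 * w ^ 2 / 4 +
            (4 * N * w / L - 8 * (1 - w) / L) := by ring
        rw [g4]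
        linarith
      have h6 := mul_le_mul_of_nonneg_left halg hep.le
      have h7 : e * ((m - ε) * w ^ 2) = (m - ε) * S0 κ L V (x0 + t • V) x := by
        rw [hSx]; ring
      have h8 : e * (‖V‖ ^ 2 * w ^ 2 / 2 + 4 * w * J / L - (‖V‖ ^ 2 * w ^ 2 / 4 + 4 * w * J / L +
          8 * (1 - w) / L - 4 * N * w / L)) = e * (‖V‖ ^ 2 * w ^ 2 / 2 + 4 * w * J / L) -
          e * (‖V‖ ^ 2 * w ^ 2 / 4 + 4 * w * J / L + 8 * (1 - w) / L - 4 * N * w / L) := by ring
      rw [h7, h8] at h6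
      linarith
  · -- initial time
    intro x
    rw [add_zero, zero_smul, add_zero]
    by_cases hx : dist x x0 ≤ l
    · have h1 := hu0 x (mem_closedBall.2 hx)
      have h2 := hSq x0 x
      linarith
    · have h1 := hunn t0 ht0 x
      have h2 : S0 κ L V x0 x = 0 := by
        apply S0_zero
        have h3 : l ^ 2 ≤ ‖x - x0‖ ^ 2 := by
          apply pow_le_pow_left₀ hlp.le
          rw [← dist_eq_norm]
          exact (not_le.1 hx).le
        have h4 : 1 ≤ ‖x - x0‖ ^ 2 / L := by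
          rw [le_div_iff₀ hLp, one_mul]
          exact h3
        linarith
      rw [h2]
      linarith

end Pool.Agent.H73.RD
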