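import Pool.Agent.H91.RD.Basic

/-!
# MP_609556_an: module P1 (expansion of ignited balls)
-/

open MeasureTheory Set Filter Topology Metric

namespace Pool.Agent.H73.RD

open Pool.Agent.H91.RD

/-- Laplacian of a difference, pointwise form -/
theorem lap_sub {N : ℕ} {g h : E N → ℝ} {x : E N} (hg : ContDiffAt ℝ 2 g x)
    (hh : ContDiffAt ℝ 2 h x) :
    Laplacian.laplacian (fun y => g y - h y) x =
      Laplacian.laplacian g x - Laplacian.laplacian h x := by
  have := hg.laplacian_sub hh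
  exact this

theorem continuous_rad {N : ℕ} (a : ℝ) (x0 : E N) :
    Continuous (fun x : E N => √(a ^ 2 + ‖x - x0‖ ^ 2)) := by
  fun_prop

theorem norm_le_rad {N : ℕ} (a : ℝ) (x0 x : E N) : ‖x - x0‖ ≤ √(a ^ 2 + ‖x - x0‖ ^ 2) := by
  apply Real.le_sqrt_of_sq_le
  nlinarith [sq_nonneg a]

theorem le_rad {N : ℕ} {a : ℝ} (x0 x : E N) : a ≤ √(a ^ 2 + ‖x - x0‖ ^ 2) := by
  apply Real.le_sqrt_of_sq_le
  nlinarith [sq_nonneg ‖x - x0‖]

theorem rad_le {N : ℕ} {a : ℝ} (ha : 0 ≤ a) (x0 x : E N) :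
    √(a ^ 2 + ‖x - x0‖ ^ 2) ≤ a + ‖x - x0‖ := by
  apply Real.sqrt_le_iff.2
  constructor
  · positivity
  · nlinarith [mul_nonneg ha (norm_nonneg (x - x0))]

theorem p1 (hF : T_FRP) (hB : T_P1B) (hR : T_RAD) (hM : T_MP0) : T_P1 := by
  intro N f φ c lam K k μ η0 θ hN hyp δ hδ
  obtain ⟨β, C, hfr⟩ := hF f φ c lam K k μ η0 θ hyp
  obtain ⟨η, R0, K3, s0, S, hη, hηδ, hR0, hK3, hs0, hScont, hSC2, hSd, hS1, hSsub, hS0, hS0',
    hSend⟩ := hB N f φ c lam K k μ η0 θ β C hN hyp hfr δ hδ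
  refine ⟨η, R0, K3, s0, hη, hηδ, hR0, hK3, hs0, ?_⟩
  intro u hu t0 ht0 x0 hign s hs y hy
  have hL := hyp.toLip
  have hspos : 0 < s := by linarith
  obtain ⟨M, hM'⟩ := hu.bdd
  have hunn : ∀ t > 0, ∀ x, 0 ≤ u t x := fun t ht x => (hM' t ht x).1
  set r : E N → ℝ := fun x => √((1 : ℝ) ^ 2 + ‖x - x0‖ ^ 2) with hr
  have hr1 : ∀ x, 1 ≤ r x := fun x => le_rad x0 x
  have key := hM N K 0 s 1 (fun τ x => u (t0 + τ) x - S τ (r x)) hL.K0.le hspos ?_ ?_ ?_ ?_ s
    ⟨hspos.le, le_rfl⟩ y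
  · have h1 : r y ≤ 1 + c * s - K3 * √s := by
      have h2 := rad_le (a := 1) zero_le_one x0 y
      have h3 : ‖y - x0‖ ≤ c * s - K3 * √s := by
        rw [← dist_eq_norm, dist_comm]; exact hy
      simp only [hr]
      linarith
    have h4 := hSend s hs (r y) h1
    linarith
  · -- continuity
    apply ContinuousOn.sub
    · have h1 : ContinuousOn (fun p : ℝ × E N => ((t0 + p.1, p.2) : ℝ × E N)) (Icc 0 s ×ˢ univ) := by
        fun_prop
      have h2 : MapsTo (fun p : ℝ × E N => ((t0 + p.1, p.2) : ℝ × E N)) (Icc 0 s ×ˢ univ)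
          (Ioi 0 ×ˢ univ) := by
        rintro ⟨a, b⟩ ⟨ha, _⟩
        refine ⟨?_, mem_univ _⟩
        simp only [mem_Icc] at ha
        simp only [mem_Ioi]
        linarith [ha.1]
      exact hu.cont.comp h1 h2
    · have h1 : ContinuousOn (fun p : ℝ × E N => ((p.1, r p.2) : ℝ × ℝ)) (Icc 0 s ×ˢ univ) := by
        have := continuous_rad 1 x0
        have h3 : Continuous (fun p : ℝ × E N => ((p.1, r p.2) : ℝ × ℝ)) :=
          continuous_fst.prodMk (this.comp continuous_snd)
        exact h3.continuousOn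
      have h2 : MapsTo (fun p : ℝ × E N => ((p.1, r p.2) : ℝ × ℝ)) (Icc 0 s ×ˢ univ)
          (Ici 0 ×ˢ univ) := by
        rintro ⟨a, b⟩ ⟨ha, _⟩
        exact ⟨ha.1, mem_univ _⟩
      exact hScont.comp h1 h2
  · -- lower bound
    intro t ht x
    have h1 := hunn (t0 + t) (by linarith [ht.1]) x
    have h2 := hS1 t ht.1 (r x)
    linarith
  · -- differential inequality
    intro t ht x hz
    have htp : 0 < t0 + t := by linarith [ht.1]
    have ht0' : 0 ≤ t := ht.1.le
    have hSr := hR N 1 x0 (S t) one_pos (hSC2 t ht0')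
    have hd1 : DifferentiableAt ℝ (fun s => u (t0 + s) x) t := by
      have := hu.dt (t0 + t) htp x
      exact DifferentiableAt.comp t this (by fun_prop)
    have hd2 := hSd t ht0' (r x)
    have hup := hunn (t0 + t) htp x
    have hSpos : 0 < S t (r x) := by linarith
    refine ⟨?_, ?_, ?_⟩
    · exact (hu.c2 _ htp).contDiffAt.sub hSr.1.contDiffAt
    · exact hd1.sub hd2
    · rw [lap_sub (hu.c2 _ htp).contDiffAt hSr.1.contDiffAt, hSr.2 x]
      have e1 : deriv (fun s => u (t0 + s) x - S s (r x)) t =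
          deriv (fun s => u s x) (t0 + t) - deriv (fun s => S s (r x)) t := by
        rw [show (fun s => u (t0 + s) x - S s (r x)) =
          (fun s => u (t0 + s) x) - (fun s => S s (r x)) from rfl, deriv_sub hd1 hd2]
        congr 1
        exact deriv_comp_const_add (fun s => u s x) t0 t
      rw [e1]
      have h1 := hu.le _ htp x
      have h2 := hSsub t ht0' (r x) (hr1 x) hSpos
      have h3 := hL.lip (u (t0 + t) x) (S t (r x))
      rw [abs_of_neg hz] at h3
      have h4 := (abs_le.1 h3).1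
      have h5 : √((1 : ℝ) ^ 2 + ‖x - x0‖ ^ 2) = r x := rfl
      rw [h5]
      nlinarith
  · -- initial time
    intro x
    simp only [add_zero]
    by_cases hx : dist x x0 ≤ R0
    · have h1 := hign x (mem_closedBall.2 hx)
      have h2 := hS0 (r x)
      linarith
    · have h1 := hunn t0 ht0 x
      have h2 : R0 ≤ r x := by
        have := norm_le_rad 1 x0 x
        rw [dist_eq_norm] at hx
        simp only [hr]
        linarith
      have h3 := hS0' (r x) h2
      linarith

end Pool.Agent.H73.RD
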