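import Pool.Agent.H73.RD.P1
import Pool.Agent.H91.RD.Targets2

/-!
# MP_609556_an: module P1S (expansion over a stable base)
-/

open MeasureTheory Set Filter Topology Metric

namespace Pool.Agent.H73.RD

open Pool.Agent.H91.RD

theorem p1s (hF : T_FRP) (hB : T_P1SB) (hR : T_RAD) (hM : T_MP0) : T_P1S := by
  intro N f F φ c lam K k μ η0 θ hN hyp hFl hFf hFs δ c' ν hδ hc' hν
  obtain ⟨β, C, hfr⟩ := hF f φ c lam K k μ η0 θ hyp
  obtain ⟨η, ε0, R0, K3, s0, S, hη, hηδ, hε0, hε0δ, hR0, hK3, hs0, hScont, hSC2, hSd, hS1, hSsub,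
    hS0, hS0', hSend⟩ := hB N f F φ c lam K k μ η0 θ β C hN hyp hfr hFl hFf hFs δ c' ν hδ hc' hν
  refine ⟨η, ε0, R0, K3, s0, hη, hηδ, hε0, hε0δ, hR0, hK3, hs0, ?_⟩
  intro v hv t0 ht0 x0 hign hbase s hs y hy
  have hL := hyp.toLip
  have hspos : 0 < s := by linarith
  obtain ⟨M, hM'⟩ := hv.bdd
  set r : E N → ℝ := fun x => √((1 : ℝ) ^ 2 + ‖x - x0‖ ^ 2) with hr
  have hr1 : ∀ x, 1 ≤ r x := fun x => le_rad x0 x
  have hrd : ∀ x, dist x x0 ≤ r x := by
    intro x
    rw [dist_eq_norm]
    exact norm_le_rad 1 x0 x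
  set z : ℝ → E N → ℝ := fun τ x =>
    if dist x x0 ≤ R0 + c' * τ then min (v (t0 + τ) x - S τ (r x)) 0 else 0 with hz
  -- continuity of the two parts
  have hvc : ContinuousOn (fun p : ℝ × E N => v (t0 + p.1) p.2) (Icc 0 s ×ˢ univ) := by
    have h1 : ContinuousOn (fun p : ℝ × E N => ((t0 + p.1, p.2) : ℝ × E N)) (Icc 0 s ×ˢ univ) := by
      fun_prop
    have h2 : MapsTo (fun p : ℝ × E N => ((t0 + p.1, p.2) : ℝ × E N)) (Icc 0 s ×ˢ univ)
        (Ioi 0 ×ˢ univ) := by
      rintro ⟨a, b⟩ ⟨ha, _⟩
      refine ⟨?_, mem_univ _⟩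
      simp only [mem_Icc] at ha
      simp only [mem_Ioi]
      linarith [ha.1]
    exact hv.cont.comp h1 h2
  have hSc : ContinuousOn (fun p : ℝ × E N => S p.1 (r p.2)) (Icc 0 s ×ˢ univ) := by
    have h1 : ContinuousOn (fun p : ℝ × E N => ((p.1, r p.2) : ℝ × ℝ)) (Icc 0 s ×ˢ univ) := by
      have := continuous_rad 1 x0
      have h3 : Continuous (fun p : ℝ × E N => ((p.1, r p.2) : ℝ × ℝ)) :=
        continuous_fst.prodMk (this.comp continuous_snd)
      exact h3.continuousOn
    have h2 : MapsTo (fun p : ℝ × E N => ((p.1, r p.2) : ℝ × ℝ)) (Icc 0 s ×ˢ univ)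
        (Ici 0 ×ˢ univ) := by
      rintro ⟨a, b⟩ ⟨ha, _⟩
      exact ⟨ha.1, mem_univ _⟩
    exact hScont.comp h1 h2
  have key := hM N K 0 s (|M| + 1) z hL.K0.le hspos ?_ ?_ ?_ ?_ s ⟨hspos.le, le_rfl⟩ y
  · have hin : dist y x0 ≤ R0 + c' * s := by
      have h1 : 0 ≤ √s := Real.sqrt_nonneg s
      have h2 : c * s ≤ c' * s := mul_le_mul_of_nonneg_right hc'.le hspos.le
      rw [dist_comm]
      nlinarith
    have h1 : r y ≤ 1 + c * s - K3 * √s := by
      have h2 := rad_le (a := 1) zero_le_one x0 y
      have h3 : ‖y - x0‖ ≤ c * s - K3 * √s := by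
        rw [← dist_eq_norm, dist_comm]; exact hy
      simp only [hr]
      linarith
    have h4 := hSend s hs (r y) h1
    simp only [hz, if_pos hin] at key
    have h5 := (le_min_iff.1 key).1
    linarith
  · -- continuity
    rw [continuousOn_iff_continuous_domRestrict]
    change Continuous (fun p : (Icc (0 : ℝ) s ×ˢ (univ : Set (E N)) : Set (ℝ × E N)) =>
          if dist p.1.2 x0 ≤ R0 + c' * p.1.1 then
            min (v (t0 + p.1.1) p.1.2 - S p.1.1 (r p.1.2)) 0 else 0)
    refine Continuous.if_le ?_ continuous_const ?_ ?_ ?_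
    · have h1 := (continuousOn_iff_continuous_domRestrict.1 (hvc.sub hSc))
      exact h1.min continuous_const
    · exact (continuous_snd.comp continuous_subtype_val).dist continuous_const
    · exact continuous_const.add (continuous_const.mul (continuous_fst.comp continuous_subtype_val))
    · rintro ⟨⟨t, x⟩, ht, _⟩ hx
      simp only at hx ht ⊢
      have ht0' : 0 ≤ t := ht.1
      have h1 := hbase t ht0' x hx.le
      have h2 := hS0' t ht0' (r x) (by rw [← hx]; exact hrd x)
      exact min_eq_right (by linarith)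
  · -- lower bound
    intro t ht x
    have hM0 : 0 ≤ |M| := abs_nonneg M
    simp only [hz]
    split_ifs with hx
    · apply le_min
      · have h1 := (abs_le.1 (hM' (t0 + t) (by linarith [ht.1]) x)).1
        have h2 := (hS1 t ht.1 (r x)).2
        have h3 := le_abs_self M
        linarith
      · linarith
    · linarith
  · -- differential inequality
    intro t ht x hzn
    have htp : 0 < t0 + t := by linarith [ht.1]
    have ht0' : 0 ≤ t := ht.1.le
    have hx1 : dist x x0 ≤ R0 + c' * t := by
      by_contra hcon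
      simp only [hz, if_neg hcon] at hzn
      exact lt_irrefl _ hzn
    have hneg : v (t0 + t) x - S t (r x) < 0 := by
      simp only [hz, if_pos hx1] at hzn
      by_contra hcon
      push Not at hcon
      rw [min_eq_right hcon] at hzn
      exact lt_irrefl _ hzn
    have hx2 : dist x x0 < R0 + c' * t := by
      rcases hx1.lt_or_eq with h | h
      · exact h
      · exfalso
        have h1 := hbase t ht0' x h.le
        have h2 := hS0' t ht0' (r x) (by rw [← h]; exact hrd x)
        linarith
    have hzt : z t x = v (t0 + t) x - S t (r x) := by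
      simp only [hz, if_pos hx1]
      exact min_eq_left hneg.le
    have hSr := hR N 1 x0 (S t) one_pos (hSC2 t ht0')
    have hd1 : DifferentiableAt ℝ (fun s => v (t0 + s) x) t := by
      have := hv.dt (t0 + t) htp x
      exact DifferentiableAt.comp t this (by fun_prop)
    have hd2 := hSd t ht0' (r x)
    have hcx : ContinuousAt (fun x' => v (t0 + t) x' - S t (r x')) x :=
      ((hv.c2 _ htp).continuous.sub hSr.1.continuous).continuousAt
    have hct : ContinuousAt (fun s => v (t0 + s) x - S s (r x)) t := (hd1.sub hd2).continuousAt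
    have evx : z t =ᶠ[𝓝 x] fun x' => v (t0 + t) x' - S t (r x') := by
      have h1 : ∀ᶠ x' in 𝓝 x, v (t0 + t) x' - S t (r x') < 0 := hcx.eventually_lt_const hneg
      have h2 : ∀ᶠ x' in 𝓝 x, dist x' x0 < R0 + c' * t :=
        (continuous_id.dist continuous_const).continuousAt.eventually_lt_const hx2
      filter_upwards [h1, h2] with x' hx'1 hx'2
      simp only [hz, if_pos hx'2.le]
      exact min_eq_left hx'1.le
    have evt : (fun s => z s x) =ᶠ[𝓝 t] fun s => v (t0 + s) x - S s (r x) := by
      have h1 : ∀ᶠ s in 𝓝 t, v (t0 + s) x - S s (r x) < 0 := hct.eventually_lt_const hneg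
      have h2 : ∀ᶠ s in 𝓝 t, dist x x0 < R0 + c' * s :=
        (continuous_const.add (continuous_const.mul continuous_id)).continuousAt.eventually_const_lt
          hx2
      filter_upwards [h1, h2] with s' hs'1 hs'2
      simp only [hz, if_pos hs'2.le]
      exact min_eq_left hs'1.le
    refine ⟨?_, ?_, ?_⟩
    · exact ((hv.c2 _ htp).contDiffAt.sub hSr.1.contDiffAt).congr_of_eventuallyEq evx
    · exact (hd1.sub hd2).congr_of_eventuallyEq evt
    · rw [(InnerProductSpace.laplacian_congr_nhds evx).self_of_nhds, evt.deriv_eq, hzt,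
        lap_sub (hv.c2 _ htp).contDiffAt hSr.1.contDiffAt, hSr.2 x]
      have e1 : deriv (fun s => v (t0 + s) x - S s (r x)) t =
          deriv (fun s => v s x) (t0 + t) - deriv (fun s => S s (r x)) t := by
        rw [show (fun s => v (t0 + s) x - S s (r x)) =
          (fun s => v (t0 + s) x) - (fun s => S s (r x)) from rfl, deriv_sub hd1 hd2]
        congr 1
        exact deriv_comp_const_add (fun s => v s x) t0 t
      rw [e1]
      have h1 := hv.eqn _ htp x
      have h2 := hSsub t ht0' (r x) (hr1 x)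
      have h3 := hFl (v (t0 + t) x) (S t (r x))
      rw [abs_of_neg hneg] at h3
      have h4 := (abs_le.1 h3).1
      have h5 : √((1 : ℝ) ^ 2 + ‖x - x0‖ ^ 2) = r x := rfl
      rw [h5, h1]
      nlinarith
  · -- initial time
    intro x
    simp only [hz]
    split_ifs with hx
    · apply le_min _ le_rfl
      simp only [mul_zero, add_zero] at hx ⊢
      have h1 := hign x (mem_closedBall.2 hx)
      have h2 := hS0 (r x)
      linarith
    · exact le_rfl

end Pool.Agent.H73.RD
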