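import Pool.Agent.H73.RD.P1

/-!
# MP_609556_an: module P2 (smallness at the centre)
-/

open MeasureTheory Set Filter Topology Metric

namespace Pool.Agent.H73.RD

open Pool.Agent.H91.RD

theorem p2 (hF : T_FRP) (hB : T_P2B) (hR : T_RAD) (hM : T_MP0) : T_P2 := by
  intro N f φ c lam K k μ η0 θ hN hyp CT η' hCT hη'
  obtain ⟨β, C, hfr⟩ := hF f φ c lam K k μ η0 θ hyp
  obtain ⟨a, K5, ha, hK5, hB'⟩ := hB N f φ c lam K k μ η0 θ β C hN hyp hfr CT η' hCT hη'
  refine ⟨K5, hK5, ?_⟩
  intro U u hu t0 ht0 x0 σ hσ R hR' hsmall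
  obtain ⟨S, hScont, hSC2, hSd, hS0, hSsup, hSinit, hSend⟩ := hB' σ hσ R hR'
  have hL := hyp.toLip
  have hc := hyp.front.cpos
  have hap : 0 < a := by linarith
  have hunn : ∀ t > 0, ∀ x, 0 ≤ u t x := fun t ht x => hu.nonneg ht x
  have hule : ∀ t > 0, ∀ x, u t x ≤ 1 := fun t ht x => hu.le_one ht x
  set r : E N → ℝ := fun x => √(a ^ 2 + ‖x - x0‖ ^ 2) with hr
  have hra : ∀ x, a ≤ r x := fun x => le_rad x0 x
  have key := hM N K 0 σ 1 (fun τ x => S τ (r x) - u (t0 + τ) x) hL.K0.le hσ ?_ ?_ ?_ ?_ σ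
    ⟨hσ.le, le_rfl⟩ x0
  · have h1 : r x0 = a := by
      simp only [hr]
      rw [sub_self, norm_zero, zero_pow two_ne_zero, add_zero]
      exact Real.sqrt_sq hap.le
    rw [h1] at key
    linarith
  · -- continuity
    apply ContinuousOn.sub
    · have h1 : ContinuousOn (fun p : ℝ × E N => ((p.1, r p.2) : ℝ × ℝ)) (Icc 0 σ ×ˢ univ) := by
        have := continuous_rad a x0
        have h3 : Continuous (fun p : ℝ × E N => ((p.1, r p.2) : ℝ × ℝ)) :=
          continuous_fst.prodMk (this.comp continuous_snd)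
        exact h3.continuousOn
      have h2 : MapsTo (fun p : ℝ × E N => ((p.1, r p.2) : ℝ × ℝ)) (Icc 0 σ ×ˢ univ)
          (Icc 0 σ ×ˢ univ) := by
        rintro ⟨a, b⟩ ⟨ha, _⟩
        exact ⟨ha, mem_univ _⟩
      exact hScont.comp h1 h2
    · have h1 : ContinuousOn (fun p : ℝ × E N => ((t0 + p.1, p.2) : ℝ × E N)) (Icc 0 σ ×ˢ univ) := by
        fun_prop
      have h2 : MapsTo (fun p : ℝ × E N => ((t0 + p.1, p.2) : ℝ × E N)) (Icc 0 σ ×ˢ univ)
          (Ioi 0 ×ˢ univ) := by
        rintro ⟨a, b⟩ ⟨ha, _⟩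
        refine ⟨?_, mem_univ _⟩
        simp only [mem_Icc] at ha
        simp only [mem_Ioi]
        linarith [ha.1]
      exact hu.sol.cont.comp h1 h2
  · -- lower bound
    intro t ht x
    have h1 := hule (t0 + t) (by linarith [ht.1]) x
    have h2 := hS0 t ht (r x)
    linarith
  · -- differential inequality
    intro t ht x hz
    have htp : 0 < t0 + t := by linarith [ht.1]
    have ht' : t ∈ Icc 0 σ := ⟨ht.1.le, ht.2⟩
    have hSr := hR N a x0 (S t) hap (hSC2 t ht')
    have hd1 : DifferentiableAt ℝ (fun s => u (t0 + s) x) t := by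
      have := hu.sol.dt (t0 + t) htp x
      exact DifferentiableAt.comp t this (by fun_prop)
    have hd2 := hSd t ht' (r x)
    have hup := hule (t0 + t) htp x
    have hS1 : S t (r x) < 1 := by linarith
    refine ⟨?_, ?_, ?_⟩
    · exact hSr.1.contDiffAt.sub (hu.sol.c2 _ htp).contDiffAt
    · exact hd2.sub hd1
    · rw [lap_sub hSr.1.contDiffAt (hu.sol.c2 _ htp).contDiffAt, hSr.2 x]
      have e1 : deriv (fun s => S s (r x) - u (t0 + s) x) t =
          deriv (fun s => S s (r x)) t - deriv (fun s => u s x) (t0 + t) := by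
        rw [show (fun s => S s (r x) - u (t0 + s) x) =
          (fun s => S s (r x)) - (fun s => u (t0 + s) x) from rfl, deriv_sub hd2 hd1]
        congr 1
        exact deriv_comp_const_add (fun s => u s x) t0 t
      rw [e1]
      have h1 := hu.sol.eqn _ htp x
      have h2 := hSsup t ht' (r x) (hra x) hS1
      have h3 := hL.lip (S t (r x)) (u (t0 + t) x)
      rw [abs_of_neg hz] at h3
      have h4 := (abs_le.1 h3).1
      have h5 : √(a ^ 2 + ‖x - x0‖ ^ 2) = r x := rfl
      rw [h5, h1]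
      nlinarith
  · -- initial time
    intro x
    simp only [add_zero]
    have h1 := hule t0 ht0 x
    have h2 := hsmall x
    have h3 := hSinit (r x)
    have h4 : dist x x0 ≤ r x := by
      rw [dist_eq_norm]; exact norm_le_rad a x0 x
    have h5 : CT * Real.exp (-(c / 2 * (R - dist x x0))) ≤
        CT * Real.exp (-(c / 2 * (R - r x))) := by
      apply mul_le_mul_of_nonneg_left _ (by linarith)
      apply Real.exp_le_exp.2
      nlinarith
    have h6 : u t0 x ≤ min 1 (CT * Real.exp (-(c / 2 * (R - r x)))) :=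
      le_min h1 (h2.trans h5)
    linarith

end Pool.Agent.H73.RD
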